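import Pool.Agent.Lib.MP_5349a4_pr.M.H29.MagA

/-!
# MAG: the lower bound of the magnetization
-/

set_option autoImplicit false
open MeasureTheory Set
open scoped ENNReal NNReal

namespace Pool.Agent.Lib.MP_5349a4_pr.H29

theorem green_bound (hMe : MeckeStatement) (hMS : MSumStatement) (hMR : MRestrStatement)
    (hS : SuperStatement) (hMO : MOpsStatement) (hP : ProbStatement) (hC : ConMStatement)
    (hB : ClbStatement) (hCa : CampStatement) (d : ℕ) (hd : 1 ≤ d) (lam h : ℝ≥0) (hh : h ≤ 1)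
    (L : ℝ) :
    2 * ((h : ℝ≥0∞) * ∫⁻ ω, cnt (ad 1) (pt ω) 0 ∂PL (leb lam (bal (0 : Eu d) L))) ≤
      2 * magL d lam 1 h L + (h : ℝ≥0∞) * (h * ∫⁻ ω, cnt (ad 1) (pt ω) 0 * cnt (ad 1) (pt ω) 0
        ∂PL (leb lam (bal (0 : Eu d) L))) := by
  set V := bal (0 : Eu d) L with hV
  have hVb : Bornology.IsBounded V := Metric.isBounded_closedBall
  set ρn := leb (lam * (1 - h)) V with hρn
  set ρg := leb (lam * h) V with hρg
  set ρ := leb lam V with hρ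
  have : IsFiniteMeasure ρn := finite_leb _ hVb
  have : IsFiniteMeasure ρg := finite_leb _ hVb
  have : IsFiniteMeasure ρ := finite_leb _ hVb
  have : NullSingletonClass ρg := noAtoms_leb hd _ _
  have : NullSingletonClass ρ := noAtoms_leb hd _ _
  have p1 := (hP _ ρn).1
  have p2 := (hP _ ρg).1
  have hsum : ρn + ρg = ρ := by
    rw [hρn, hρg, hρ, ← leb_add, ← mul_add, tsub_add_cancel_of_le hh, mul_one]
  have hsm : ρg = (h : ℝ≥0∞) • ρ := by
    rw [hρg, hρ]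
    unfold leb
    rw [smul_smul, mul_comm lam h, ENNReal.coe_mul]
  have hadj : MAdj (ad 1 : Eu d → Eu d → Prop) := madj_ad 1
  -- first moment
  have e1 := first_moment hMe hS hMO hP hC hB ρn ρg (ad 1) hadj (0 : Eu d)
  have e2 : ∫⁻ z, tp (ad 1) (ρn + ρg) (0 : Eu d) z ∂ρg =
      (h : ℝ≥0∞) * ∫⁻ ω, cnt (ad 1) (pt ω) 0 ∂PL ρ := by
    rw [hsum, hsm, lintegral_smul_measure, smul_eq_mul]
    have h3 := hCa _ ρ (ad 1) (fun _ => 1) (0 : Eu d) hadj measurable_const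
    simp only [mul_one] at h3
    rw [← h3]
    rfl
  -- second moment
  have e3 := second_green hMe hMS hMR hS hMO hP hC ρn ρg (ad 1) hadj (0 : Eu d)
  have e4 : ∫⁻ z, ∫⁻ z', Phi (ad 1) (ρn + ρg) (0 : Eu d) z z' ∂ρg ∂ρg ≤
      (h : ℝ≥0∞) * (h * ∫⁻ ω, cnt (ad 1) (pt ω) 0 * cnt (ad 1) (pt ω) 0 ∂PL ρ) := by
    rw [hsum]
    have h4 : ∫⁻ z, ∫⁻ z', Phi (ad 1) ρ (0 : Eu d) z z' ∂ρg ∂ρg =
        (h : ℝ≥0∞) * (h * ∫⁻ z, ∫⁻ z', Phi (ad 1) ρ (0 : Eu d) z z' ∂ρ ∂ρ) := by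
      rw [hsm, lintegral_smul_measure, smul_eq_mul]
      congr 1
      have h5 : ∀ z, ∫⁻ z', Phi (ad 1) ρ (0 : Eu d) z z' ∂((h : ℝ≥0∞) • ρ) =
          (h : ℝ≥0∞) * ∫⁻ z', Phi (ad 1) ρ (0 : Eu d) z z' ∂ρ := by
        intro z
        rw [lintegral_smul_measure, smul_eq_mul]
      rw [lintegral_congr h5, lintegral_const_mul' _ _ ENNReal.coe_ne_top]
    rw [h4, ← second_total hMe hMS hMR hMO hC ρ (ad 1) hadj (0 : Eu d)]
    gcongr with ω
    unfold cnt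
    rw [← ENNReal.tsum_mul_right]
    refine ENNReal.tsum_le_tsum fun z => ?_
    rw [← ENNReal.tsum_mul_left]
    refine ENNReal.tsum_le_tsum fun z' => ?_
    rw [ind_and]
    calc ind ((z : Eu d) ≠ z') * (ind (Con (ad 1) (pt ω) 0 z) * ind (Con (ad 1) (pt ω) 0 z'))
        ≤ 1 * (ind (Con (ad 1) (pt ω) 0 z) * ind (Con (ad 1) (pt ω) 0 z')) := by
          gcongr
          exact ind_le_one _
      _ = _ := one_mul _
  -- the event
  have mE : MeasurableSet {q : Cfg (Eu d) × Cfg (Eu d) |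
      ∃ z ∈ pt q.2, Con (ad 1) (pt q.1 ∪ pt q.2) 0 z} := by
    have hS2 : MeasurableSet {w : (Cfg (Eu d) × Cfg (Eu d)) × Eu d |
        Con (ad 1) (pt w.1.1 ∪ pt w.1.2) 0 w.2} := by
      obtain ⟨χ, hχ, hχ'⟩ := H53.meas_union (X := (Cfg (Eu d) × Cfg (Eu d)) × Eu d) hMO
        (measurable_fst.comp measurable_fst) (measurable_snd.comp measurable_fst)
      have := H53.meas_con hC hadj hχ (measurable_const (a := (0 : Eu d))) measurable_snd
      simp only [hχ'] at this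
      exact this
    exact H53.meas_ex hMS (φ := fun q : Cfg (Eu d) × Cfg (Eu d) => q.2) measurable_snd
      (S := fun q z => Con (ad 1) (pt q.1 ∪ pt q.2) 0 z) hS2
  have e5 : ∫⁻ a, ∫⁻ b, ind (∃ z ∈ pt b, Con (ad 1) (pt a ∪ pt b) (0 : Eu d) z)
      ∂PL ρg ∂PL ρn ≤ magL d lam 1 h L := by
    have h6 := lintegral_prod (μ := PL ρn) (ν := PL ρg)
      (fun q : Cfg (Eu d) × Cfg (Eu d) => ind (∃ z ∈ pt q.2, Con (ad 1) (pt q.1 ∪ pt q.2) 0 z))
      (measurable_ind mE).aemeasurable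
    rw [← h6, lintegral_ind mE]
    unfold magL gp
    refine measure_mono fun q hq => ?_
    obtain ⟨z, hz, hz'⟩ := hq
    exact ⟨z, hz, (H53.mem_cl_iff (ad 1) _ _ _).2 (Or.inr ⟨Or.inr hz, hz'⟩)⟩
  rw [← e2, ← e1]
  calc 2 * ∫⁻ a, ∫⁻ b, ∑' p : (pt b : Set (Eu d)), ind (Con (ad 1) (pt a ∪ pt b) 0 p)
        ∂PL ρg ∂PL ρn
      = ∫⁻ a, ∫⁻ b, 2 * ∑' p : (pt b : Set (Eu d)), ind (Con (ad 1) (pt a ∪ pt b) 0 p)
        ∂PL ρg ∂PL ρn := by
        rw [← lintegral_const_mul' _ _ (by norm_num)]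
        refine lintegral_congr fun a => ?_
        rw [lintegral_const_mul' _ _ (by norm_num)]
    _ ≤ ∫⁻ a, ∫⁻ b, (2 * ind (∃ z ∈ pt b, Con (ad 1) (pt a ∪ pt b) (0 : Eu d) z) +
          ∑' z : (pt b : Set (Eu d)), ∑' z' : (pt b : Set (Eu d)),
            ind ((z : Eu d) ≠ z') * ind (Con (ad 1) (pt a ∪ pt b) 0 z ∧
              Con (ad 1) (pt a ∪ pt b) 0 z')) ∂PL ρg ∂PL ρn := by
        refine lintegral_mono fun a => lintegral_mono fun b => ?_
        exact count_le (pt_finite b) _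
    _ = 2 * ∫⁻ a, ∫⁻ b, ind (∃ z ∈ pt b, Con (ad 1) (pt a ∪ pt b) (0 : Eu d) z)
          ∂PL ρg ∂PL ρn +
        ∫⁻ z, ∫⁻ z', Phi (ad 1) (ρn + ρg) (0 : Eu d) z z' ∂ρg ∂ρg := by
        rw [← e3, ← lintegral_const_mul' _ _ (by norm_num)]
        have h7 : ∀ a, ∫⁻ b, (2 * ind (∃ z ∈ pt b, Con (ad 1) (pt a ∪ pt b) (0 : Eu d) z) +
            ∑' z : (pt b : Set (Eu d)), ∑' z' : (pt b : Set (Eu d)),
              ind ((z : Eu d) ≠ z') * ind (Con (ad 1) (pt a ∪ pt b) 0 z ∧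
                Con (ad 1) (pt a ∪ pt b) 0 z')) ∂PL ρg =
            2 * ∫⁻ b, ind (∃ z ∈ pt b, Con (ad 1) (pt a ∪ pt b) (0 : Eu d) z) ∂PL ρg +
            ∫⁻ b, ∑' z : (pt b : Set (Eu d)), ∑' z' : (pt b : Set (Eu d)),
              ind ((z : Eu d) ≠ z') * ind (Con (ad 1) (pt a ∪ pt b) 0 z ∧
                Con (ad 1) (pt a ∪ pt b) 0 z') ∂PL ρg := by
          intro a
          have m1 : Measurable fun b : Cfg (Eu d) =>
              ind (∃ z ∈ pt b, Con (ad 1) (pt a ∪ pt b) (0 : Eu d) z) :=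
            (measurable_ind mE).comp (measurable_const.prodMk measurable_id)
          rw [lintegral_add_left (m1.const_mul 2), lintegral_const_mul' _ _ (by norm_num)]
        rw [lintegral_congr h7, lintegral_add_left]
        have m2 : Measurable fun a : Cfg (Eu d) =>
            ∫⁻ b, ind (∃ z ∈ pt b, Con (ad 1) (pt a ∪ pt b) (0 : Eu d) z) ∂PL ρg :=
          (measurable_ind mE).lintegral_prod_right'
        exact m2.const_mul 2
    _ ≤ 2 * magL d lam 1 h L + (h : ℝ≥0∞) * (h * ∫⁻ ω, cnt (ad 1) (pt ω) 0 *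
          cnt (ad 1) (pt ω) 0 ∂PL ρ) := by
        gcongr

/-- MAG (7.1) -/
theorem mag (hSecM : SecMStatement) (hMe : MeckeStatement) (hMS : MSumStatement)
    (hMR : MRestrStatement) (hS : SuperStatement) (hMO : MOpsStatement) (hP : ProbStatement)
    (hC : ConMStatement) (hB : ClbStatement) (hCa : CampStatement) : MagStatement := by
  intro d lam κ A hc
  have hκ := hc.hκ
  have hd : 1 ≤ d := by
    have h1 := hc.hd
    have h2 : 1 ≤ κ ^ 2 := Nat.one_le_pow _ _ hκ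
    omega
  have hA : (1 : ℝ) ≤ A := by exact_mod_cast hc.hA
  set D : ℝ≥0 := 16 * A ^ 3 * 8 ^ κ with hD
  have hD1 : (8 : ℝ) ≤ D := by
    rw [hD]
    push_cast
    have h1 : (1 : ℝ) ≤ (A : ℝ) ^ 3 := one_le_pow₀ hA
    have h2 : (1 : ℝ) ≤ 8 ^ κ := one_le_pow₀ (by norm_num)
    calc (8 : ℝ) ≤ 16 * 1 * 1 := by norm_num
      _ ≤ 16 * (A : ℝ) ^ 3 * 8 ^ κ := by gcongr
  have hD0 : (0 : ℝ) < D := by linarith
  have hD0' : (0 : ℝ≥0) < D := by exact_mod_cast hD0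
  set b : ℝ≥0 := D⁻¹ with hb
  have hb0 : 0 < b := inv_pos.2 hD0'
  have hb1 : b ≤ 1 := by
    rw [hb]
    refine inv_le_one_of_one_le₀ ?_
    have : (1 : ℝ) ≤ D := by linarith
    exact_mod_cast this
  refine ⟨1 / 8, b ^ (3 * κ), by positivity, pow_pos hb0 _, pow_le_one₀ (by positivity) hb1, ?_⟩
  intro h hh0 hhb
  have hh1 : h ≤ 1 := hhb.trans (pow_le_one₀ (by positivity) hb1)
  have hh0' : (0 : ℝ) < h := by exact_mod_cast hh0
  have hn0 : 3 * κ ≠ 0 := by omega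
  set x : ℝ := (h : ℝ) ^ (1 / (3 * (κ : ℝ))) with hx
  have hx0 : 0 < x := Real.rpow_pos_of_pos hh0' _
  have hcast : (1 / (3 * (κ : ℝ))) = (((3 * κ : ℕ) : ℝ))⁻¹ := by
    push_cast
    rw [one_div]
  have hxp : x ^ (3 * κ) = h := by
    rw [hx, hcast]
    exact Real.rpow_inv_natCast_pow hh0'.le hn0
  have hxb : x ≤ b := by
    have h1 : (h : ℝ) ≤ (b : ℝ) ^ (3 * κ) := by exact_mod_cast hhb
    have h2 : x ≤ ((b : ℝ) ^ (3 * κ)) ^ (((3 * κ : ℕ) : ℝ))⁻¹ := by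
      rw [hx, hcast]
      exact Real.rpow_le_rpow hh0'.le h1 (by positivity)
    rwa [Real.pow_rpow_inv_natCast (by positivity) hn0] at h2
  have hDx : (D : ℝ) * x ≤ 1 := by
    have h1 : (b : ℝ) = (D : ℝ)⁻¹ := by rw [hb]; push_cast; rfl
    calc (D : ℝ) * x ≤ D * (D : ℝ)⁻¹ := by rw [← h1]; gcongr
      _ = 1 := mul_inv_cancel₀ hD0.ne'
  have hx1 : x ≤ 1 / 8 := by
    rw [le_div_iff₀ (by norm_num)]
    calc x * 8 ≤ x * D := by gcongr
      _ = D * x := mul_comm _ _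
      _ ≤ 1 := hDx
  have hy1 : 1 ≤ 1 / x := by
    rw [le_div_iff₀ hx0]
    linarith
  set R : ℕ := ⌊1 / x⌋₊ with hR
  have hR1 : 1 ≤ R := Nat.le_floor (by simpa using hy1)
  have hRle : (R : ℝ) ≤ 1 / x := Nat.floor_le (by positivity)
  have hRge : 1 / (2 * x) ≤ R := by
    have h1 : 1 / x < R + 1 := Nat.lt_floor_add_one _
    have h2 : (1 : ℝ) ≤ R := by exact_mod_cast hR1
    have h3 : 1 / (2 * x) = (1 / x) / 2 := by
      rw [mul_comm, ← div_div]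
    rw [h3]
    linarith
  have hmain := green_bound hMe hMS hMR hS hMO hP hC hB hCa d hd lam h hh1 (R : ℝ)
  obtain ⟨s1, s2⟩ := hSecM d lam κ A hc (R : ℝ) (by exact_mod_cast hR1)
  have hMag : magL d lam 1 h (R : ℝ) ≤ Mag d lam 1 h := le_iSup (fun L : ℕ => magL d lam 1 h L) R
  -- the exponent
  have hexp : (h : ℝ) ^ (1 - 1 / (3 * (κ : ℝ))) = h / x := by
    rw [Real.rpow_sub hh0', Real.rpow_one]
  -- real bound
  have hT : (4 : ℝ≥0∞) * (A * ENNReal.ofReal ((2 * (R : ℝ)) ^ κ)) ^ 3 =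
      ENNReal.ofReal (4 * ((A : ℝ) * (2 * (R : ℝ)) ^ κ) ^ 3) := by
    have e1 : (A : ℝ≥0∞) = ENNReal.ofReal (A : ℝ) := (ENNReal.ofReal_coe_nnreal).symm
    have e4 : (4 : ℝ≥0∞) = ENNReal.ofReal 4 := by norm_num
    rw [e1, e4, ← ENNReal.ofReal_mul (by positivity), ← ENNReal.ofReal_pow (by positivity),
      ← ENNReal.ofReal_mul (by norm_num)]
  have hhR : (h : ℝ) * (R : ℝ) ^ (3 * κ) ≤ 1 := by
    have h1 : (R : ℝ) ^ (3 * κ) ≤ (1 / x) ^ (3 * κ) := pow_le_pow_left₀ (by positivity) hRle _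
    calc (h : ℝ) * (R : ℝ) ^ (3 * κ) ≤ h * (1 / x) ^ (3 * κ) := by gcongr
      _ = 1 := by
        rw [← hxp, ← mul_pow, mul_one_div_cancel hx0.ne', one_pow]
  have hT2 : (h : ℝ) * (h * (4 * ((A : ℝ) * (2 * (R : ℝ)) ^ κ) ^ 3)) ≤ h * (D / 4) := by
    have e : (h : ℝ) * (4 * ((A : ℝ) * (2 * (R : ℝ)) ^ κ) ^ 3) =
        (4 * (A : ℝ) ^ 3 * 8 ^ κ) * (h * (R : ℝ) ^ (3 * κ)) := by
      have e8 : (8 : ℝ) ^ κ = (2 ^ κ) ^ 3 := by
        rw [← pow_mul, mul_comm κ 3, pow_mul]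
        norm_num
      rw [e8, mul_pow 2 (R : ℝ) κ, mul_comm 3 κ, pow_mul]
      ring
    have eD : (D : ℝ) / 4 = 4 * (A : ℝ) ^ 3 * 8 ^ κ := by
      rw [hD]
      push_cast
      ring
    rw [e, eD]
    have : (4 * (A : ℝ) ^ 3 * 8 ^ κ) * (h * (R : ℝ) ^ (3 * κ)) ≤
        (4 * (A : ℝ) ^ 3 * 8 ^ κ) * 1 := by gcongr
    rw [mul_one] at this
    gcongr
  have hD4 : (D : ℝ) / 4 ≤ 1 / (4 * x) := by
    rw [div_le_div_iff₀ (by norm_num) (by positivity)]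
    linarith
  have key : ENNReal.ofReal (h * R) ≤ 2 * magL d lam 1 h (R : ℝ) +
      ENNReal.ofReal (h * (D / 4)) := by
    calc ENNReal.ofReal (h * R) = 2 * ((h : ℝ≥0∞) * ENNReal.ofReal ((R : ℝ) / 2)) := by
          have : (h : ℝ) * R = 2 * (h * ((R : ℝ) / 2)) := by ring
          rw [this, ENNReal.ofReal_mul (by norm_num), ENNReal.ofReal_mul (by positivity),
            ENNReal.ofReal_coe_nnreal]
          norm_num
      _ ≤ 2 * ((h : ℝ≥0∞) * ∫⁻ ω, cnt (ad 1) (pt ω) 0 ∂PL (leb lam (bal (0 : Eu d) (R : ℝ)))) := by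
          gcongr
      _ ≤ _ := hmain
      _ ≤ 2 * magL d lam 1 h (R : ℝ) + (h : ℝ≥0∞) * (h *
          (4 * (A * ENNReal.ofReal ((2 * (R : ℝ)) ^ κ)) ^ 3)) := by gcongr
      _ = 2 * magL d lam 1 h (R : ℝ) +
          ENNReal.ofReal (h * (h * (4 * ((A : ℝ) * (2 * (R : ℝ)) ^ κ) ^ 3))) := by
          rw [hT, ENNReal.ofReal_mul (p := (h : ℝ)) (by positivity),
            ENNReal.ofReal_mul (p := (h : ℝ)) (by positivity), ENNReal.ofReal_coe_nnreal]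
      _ ≤ _ := by
          gcongr
  have key2 : ENNReal.ofReal (h / (4 * x)) ≤ 2 * magL d lam 1 h (R : ℝ) := by
    have h1 : ENNReal.ofReal (h * R - h * (D / 4)) ≤ 2 * magL d lam 1 h (R : ℝ) := by
      rw [ENNReal.ofReal_sub _ (by positivity)]
      exact tsub_le_iff_right.2 key
    refine le_trans (ENNReal.ofReal_le_ofReal ?_) h1
    have h2 : (h : ℝ) * (1 / (2 * x)) ≤ h * R := by gcongr
    have h3 : (h : ℝ) * (D / 4) ≤ h * (1 / (4 * x)) := by gcongr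
    have h4 : (h : ℝ) / (4 * x) = h * (1 / (2 * x)) - h * (1 / (4 * x)) := by
      field_simp
      ring
    rw [h4]
    linarith
  have key3 : ENNReal.ofReal (h / (8 * x)) ≤ Mag d lam 1 h := by
    refine le_trans ?_ hMag
    have h1 : (2 : ℝ≥0∞) * ENNReal.ofReal (h / (8 * x)) = ENNReal.ofReal (h / (4 * x)) := by
      have : (h : ℝ) / (4 * x) = 2 * (h / (8 * x)) := by
        field_simp
        ring
      rw [this, ENNReal.ofReal_mul (by norm_num)]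
      norm_num
    rw [← h1] at key2
    exact (ENNReal.mul_le_mul_iff_right (by norm_num) (by norm_num)).1 key2
  constructor
  · refine le_trans (ENNReal.ofReal_le_ofReal ?_) key3
    rw [hexp]
    push_cast
    apply le_of_eq
    field_simp
  · refine le_trans ?_ key3
    rw [← ENNReal.ofReal_coe_nnreal]
    refine ENNReal.ofReal_le_ofReal ?_
    rw [le_div_iff₀ (by positivity)]
    have : (h : ℝ) * (8 * x) ≤ h * 1 := by
      gcongr
      linarith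
    linarith

end Pool.Agent.Lib.MP_5349a4_pr.H29
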