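import Pool.Agent.Lib.MP_5349a4_pr.M.Iface3
import Pool.Agent.Lib.MP_5349a4_pr.M.Base
import Pool.Agent.Lib.MP_5349a4_pr.M.H31.RevaA
import Pool.Agent.Lib.MP_5349a4_pr.M.H53.Meas

/-!
# MAG, part 1: moments of the number of green points in the cluster
-/

set_option autoImplicit false
open MeasureTheory Set
open scoped ENNReal NNReal

namespace Pool.Agent.Lib.MP_5349a4_pr.H29

section Moments
variable {E : Type} [MeasurableSpace E] [StandardBorelSpace E]

/-- first moment -/
theorem first_moment (hMe : MeckeStatement) (hS : SuperStatement) (hMO : MOpsStatement)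
    (hP : ProbStatement) (hC : ConMStatement) (hB : ClbStatement) (ρn ρg : Measure E)
    [IsFiniteMeasure ρn] [IsFiniteMeasure ρg] [NullSingletonClass ρg]
    (adj : E → E → Prop) (hadj : MAdj adj) (x : E) :
    ∫⁻ a, ∫⁻ b, ∑' p : (pt b : Set E), ind (Con adj (pt a ∪ pt b) x p) ∂PL ρg ∂PL ρn
      = ∫⁻ z, tp adj (ρn + ρg) x z ∂ρg := by
  have := (hP E ρn).1
  have := (hP E ρg).1
  have hmeas : Measurable fun q : (Cfg E × E) × Cfg E =>
      ind (Con adj (pt q.1.1 ∪ pt q.2) x q.1.2) := by
    obtain ⟨χ, hχ, hχ'⟩ := H53.meas_union (X := (Cfg E × E) × Cfg E) hMO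
      (measurable_fst.comp measurable_fst) measurable_snd
    refine measurable_ind ?_
    have := H53.meas_con hC hadj hχ (measurable_const (a := x))
      (measurable_snd.comp measurable_fst)
    simp only [hχ'] at this
    exact this
  have h1 : ∀ a : Cfg E, ∫⁻ b, ∑' p : (pt b : Set E), ind (Con adj (pt a ∪ pt b) x p) ∂PL ρg =
      ∫⁻ z, ∫⁻ b, ind (Con adj (pt a ∪ pt b) x z) ∂PL ρg ∂ρg := by
    intro a
    have hg : Measurable fun q : E × Cfg E => ind (Con adj (pt a ∪ pt q.2) x q.1) := by
      have : Measurable fun q : E × Cfg E => (((a, q.1), q.2) : (Cfg E × E) × Cfg E) :=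
        (measurable_const.prodMk measurable_fst).prodMk measurable_snd
      exact hmeas.comp this
    have h2 := (hMe E ρg (fun z P => ind (Con adj (pt a ∪ P) x z)) hg).1
    rw [h2]
    refine lintegral_congr fun z => lintegral_congr fun b => ind_congr ?_
    have h3 := (hB E adj (pt a ∪ pt b) (pt a ∪ pt b) x z).2.2.1
    rw [← h3]
    have : pt a ∪ insert z (pt b) = insert z (pt a ∪ pt b) := union_insert
    rw [this]
  rw [lintegral_congr h1]
  have h4 : Measurable fun q : Cfg E × E => ∫⁻ b, ind (Con adj (pt q.1 ∪ pt b) x q.2) ∂PL ρg :=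
    hmeas.lintegral_prod_right'
  rw [lintegral_lintegral_swap h4.aemeasurable]
  refine lintegral_congr fun z => ?_
  have hcm : CM fun P : Set E => ind (Con adj P x z) := by
    refine measurable_ind ?_
    exact H53.meas_con hC hadj measurable_id (measurable_const (a := x)) (measurable_const (a := z))
  rw [← hS E ρn ρg _ hcm, tp, ← lintegral_ind]
  exact H53.meas_con hC hadj measurable_id (measurable_const (a := x)) (measurable_const (a := z))

/-- the three-point quantity -/
noncomputable def Phi (adj : E → E → Prop) (ρ : Measure E) (x z z' : E) : ℝ≥0∞ :=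
  ∫⁻ ω, ind (Con adj (insert z (insert z' (pt ω))) x z ∧
    Con adj (insert z (insert z' (pt ω))) x z') ∂PL ρ

theorem meas_pair (hMO : MOpsStatement) (hC : ConMStatement)
    (adj : E → E → Prop) (hadj : MAdj adj) (x : E) {X : Type} [MeasurableSpace X]
    {φ : X → Cfg E} (hφ : Measurable φ) {u v : X → E} (hu : Measurable u) (hv : Measurable v) :
    Measurable fun q : X => ind (Con adj (insert (u q) (insert (v q) (pt (φ q)))) x (u q) ∧
      Con adj (insert (u q) (insert (v q) (pt (φ q)))) x (v q)) := by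
  obtain ⟨χ, hχ, hχ'⟩ := H53.meas_insert hMO hφ hv
  obtain ⟨ψ, hψ, hψ'⟩ := H53.meas_insert hMO hχ hu
  refine measurable_ind ?_
  have h1 := H53.meas_con hC hadj hψ (measurable_const (a := x)) hu
  have h2 := H53.meas_con hC hadj hψ (measurable_const (a := x)) hv
  have h3 := h1.inter h2
  simp only [hψ', hχ'] at h3
  exact h3

omit [MeasurableSpace E] [StandardBorelSpace E] in
theorem remove_two {Q : Set E} {z z' : E} (hz : z ∈ Q) (hz' : z' ∈ Q) :
    insert z (insert z' (Q \ {z, z'})) = Q := by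
  ext e
  simp only [mem_insert_iff, mem_sdiff, mem_singleton_iff, not_or]
  constructor
  · rintro (rfl | rfl | h)
    · exact hz
    · exact hz'
    · exact h.1
  · intro he
    by_cases h1 : e = z
    · exact Or.inl h1
    · by_cases h2 : e = z'
      · exact Or.inr (Or.inl h2)
      · exact Or.inr (Or.inr ⟨he, h1, h2⟩)

/-- second factorial moment of the total number -/
theorem second_total (hMe : MeckeStatement) (hMS : MSumStatement) (hMR : MRestrStatement)
    (hMO : MOpsStatement) (hC : ConMStatement) (ρ : Measure E)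
    [IsFiniteMeasure ρ] [NullSingletonClass ρ]
    (adj : E → E → Prop) (hadj : MAdj adj) (x : E) :
    ∫⁻ ω, ∑' z : (pt ω : Set E), ∑' z' : (pt ω : Set E),
        ind ((z : E) ≠ z') * ind (Con adj (pt ω) x z ∧ Con adj (pt ω) x z') ∂PL ρ
      = ∫⁻ z, ∫⁻ z', Phi adj ρ x z z' ∂ρ ∂ρ := by
  have h := H31.mecke2 hMe hMS hMR ρ
    (fun z z' Q => ind (Con adj (insert z (insert z' Q)) x z ∧
      Con adj (insert z (insert z' Q)) x z'))
    (meas_pair hMO hC adj hadj x (measurable_snd.comp measurable_snd) measurable_fst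
      (measurable_fst.comp measurable_snd))
  unfold Phi
  rw [← h]
  refine lintegral_congr fun ω => tsum_congr fun z => tsum_congr fun z' => ?_
  rw [remove_two z.2 z'.2]

/-- second factorial moment of the number of green points -/
theorem second_green (hMe : MeckeStatement) (hMS : MSumStatement) (hMR : MRestrStatement)
    (hS : SuperStatement) (hMO : MOpsStatement)
    (hP : ProbStatement) (hC : ConMStatement) (ρn ρg : Measure E)
    [IsFiniteMeasure ρn] [IsFiniteMeasure ρg] [NullSingletonClass ρg]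
    (adj : E → E → Prop) (hadj : MAdj adj) (x : E) :
    ∫⁻ a, ∫⁻ b, ∑' z : (pt b : Set E), ∑' z' : (pt b : Set E),
        ind ((z : E) ≠ z') * ind (Con adj (pt a ∪ pt b) x z ∧ Con adj (pt a ∪ pt b) x z')
          ∂PL ρg ∂PL ρn
      = ∫⁻ z, ∫⁻ z', Phi adj (ρn + ρg) x z z' ∂ρg ∂ρg := by
  have := (hP E ρn).1
  have := (hP E ρg).1
  -- joint measurability
  have hmeas : Measurable fun q : ((Cfg E × E) × E) × Cfg E =>
      ind (Con adj (insert q.1.1.2 (insert q.1.2 (pt q.1.1.1 ∪ pt q.2))) x q.1.1.2 ∧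
        Con adj (insert q.1.1.2 (insert q.1.2 (pt q.1.1.1 ∪ pt q.2))) x q.1.2) := by
    obtain ⟨χ, hχ, hχ'⟩ := H53.meas_union (X := ((Cfg E × E) × E) × Cfg E) hMO
      (measurable_fst.comp (measurable_fst.comp measurable_fst)) measurable_snd
    have := meas_pair hMO hC adj hadj x hχ
      (measurable_snd.comp (measurable_fst.comp measurable_fst))
      (measurable_snd.comp measurable_fst)
    simp only [hχ'] at this
    exact this
  have h1 : ∀ a : Cfg E, ∫⁻ b, ∑' z : (pt b : Set E), ∑' z' : (pt b : Set E),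
        ind ((z : E) ≠ z') * ind (Con adj (pt a ∪ pt b) x z ∧ Con adj (pt a ∪ pt b) x z')
          ∂PL ρg =
      ∫⁻ z, ∫⁻ z', ∫⁻ b, ind (Con adj (insert z (insert z' (pt a ∪ pt b))) x z ∧
        Con adj (insert z (insert z' (pt a ∪ pt b))) x z') ∂PL ρg ∂ρg ∂ρg := by
    intro a
    have hg : Measurable fun q : E × E × Cfg E =>
        ind (Con adj (insert q.1 (insert q.2.1 (pt a ∪ pt q.2.2))) x q.1 ∧
          Con adj (insert q.1 (insert q.2.1 (pt a ∪ pt q.2.2))) x q.2.1) := by
      have : Measurable fun q : E × E × Cfg E =>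
          ((((a, q.1), q.2.1), q.2.2) : ((Cfg E × E) × E) × Cfg E) :=
        ((measurable_const.prodMk measurable_fst).prodMk
          (measurable_fst.comp measurable_snd)).prodMk (measurable_snd.comp measurable_snd)
      exact hmeas.comp this
    have h2 := H31.mecke2 hMe hMS hMR ρg
      (fun z z' Q => ind (Con adj (insert z (insert z' (pt a ∪ Q))) x z ∧
        Con adj (insert z (insert z' (pt a ∪ Q))) x z')) hg
    rw [← h2]
    refine lintegral_congr fun ω => tsum_congr fun z => tsum_congr fun z' => ?_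
    have e : insert (z : E) (insert (z' : E) (pt a ∪ pt ω \ {(z : E), (z' : E)})) =
        pt a ∪ pt ω := by
      rw [← union_insert, ← union_insert, remove_two z.2 z'.2]
    rw [e]
  rw [lintegral_congr h1]
  have m1 : Measurable fun q : (Cfg E × E) × E =>
      ∫⁻ b, ind (Con adj (insert q.1.2 (insert q.2 (pt q.1.1 ∪ pt b))) x q.1.2 ∧
        Con adj (insert q.1.2 (insert q.2 (pt q.1.1 ∪ pt b))) x q.2) ∂PL ρg :=
    hmeas.lintegral_prod_right'
  have m2 : Measurable fun q : Cfg E × E =>
      ∫⁻ z', ∫⁻ b, ind (Con adj (insert q.2 (insert z' (pt q.1 ∪ pt b))) x q.2 ∧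
        Con adj (insert q.2 (insert z' (pt q.1 ∪ pt b))) x z') ∂PL ρg ∂ρg :=
    m1.lintegral_prod_right'
  rw [lintegral_lintegral_swap m2.aemeasurable]
  refine lintegral_congr fun z => ?_
  have m3 : Measurable fun q : Cfg E × E =>
      ∫⁻ b, ind (Con adj (insert z (insert q.2 (pt q.1 ∪ pt b))) x z ∧
        Con adj (insert z (insert q.2 (pt q.1 ∪ pt b))) x q.2) ∂PL ρg := by
    have : Measurable fun q : Cfg E × E => (((q.1, z), q.2) : (Cfg E × E) × E) :=
      (measurable_fst.prodMk measurable_const).prodMk measurable_snd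
    exact m1.comp this
  rw [lintegral_lintegral_swap m3.aemeasurable]
  refine lintegral_congr fun z' => ?_
  unfold Phi
  refine (hS E ρn ρg (fun P => ind (Con adj (insert z (insert z' P)) x z ∧
    Con adj (insert z (insert z' P)) x z')) ?_).symm
  exact meas_pair hMO hC adj hadj x measurable_id measurable_const measurable_const

end Moments

/-! ### pointwise inequality -/

theorem tsum_finite {E : Type} {Q : Set E} (hQ : Q.Finite) (f : E → ℝ≥0∞) :
    ∑' p : (Q : Set E), f p = ∑ p ∈ hQ.toFinset, f p := by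
  have h := Finset.tsum_subtype' hQ.toFinset f
  rw [← h]
  rw [hQ.coe_toFinset]

theorem count_le {E : Type} {Q : Set E} (hQ : Q.Finite) (p : E → Prop) :
    2 * ∑' z : (Q : Set E), ind (p z) ≤ 2 * ind (∃ z ∈ Q, p z) +
      ∑' z : (Q : Set E), ∑' z' : (Q : Set E), ind ((z : E) ≠ z') * ind (p z ∧ p z') := by
  classical
  set F := hQ.toFinset.filter p with hF
  have e1 : ∑' z : (Q : Set E), ind (p z) = (F.card : ℝ≥0∞) := by
    rw [tsum_finite hQ (fun z => ind (p z)), hF, Finset.card_filter, Nat.cast_sum]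
    refine Finset.sum_congr rfl fun z _ => ?_
    unfold ind
    split_ifs <;> simp
  have e2 : ∑' z : (Q : Set E), ∑' z' : (Q : Set E), ind ((z : E) ≠ z') * ind (p z ∧ p z') =
      (F.offDiag.card : ℝ≥0∞) := by
    have h1 : ∀ z : E, ∑' z' : (Q : Set E), ind (z ≠ z') * ind (p z ∧ p z') =
        ∑ z' ∈ hQ.toFinset, ind (z ≠ z') * ind (p z ∧ p z') := fun z =>
      tsum_finite hQ (fun z' => ind (z ≠ z') * ind (p z ∧ p z'))
    rw [tsum_congr fun z : (Q : Set E) => h1 z,
      tsum_finite hQ (fun z => ∑ z' ∈ hQ.toFinset, ind (z ≠ z') * ind (p z ∧ p z')),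
      ← Finset.sum_product']
    have h2 : F.offDiag = (hQ.toFinset ×ˢ hQ.toFinset).filter
        (fun q => q.1 ≠ q.2 ∧ (p q.1 ∧ p q.2)) := by
      ext q
      rw [Finset.mem_offDiag, hF, Finset.mem_filter, Finset.mem_filter, Finset.mem_filter,
        Finset.mem_product]
      tauto
    rw [h2, Finset.card_filter, Nat.cast_sum]
    refine Finset.sum_congr rfl fun q _ => ?_
    rw [← ind_and]
    unfold ind
    split_ifs <;> simp
  have e3 : F.card ≠ 0 → ind (∃ z ∈ Q, p z) = 1 := by
    intro h
    refine ind_of ?_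
    obtain ⟨z, hz⟩ := Finset.card_pos.1 (Nat.pos_of_ne_zero h)
    rw [hF, Finset.mem_filter, hQ.mem_toFinset] at hz
    exact ⟨z, hz.1, hz.2⟩
  rw [e1, e2, Finset.offDiag_card]
  by_cases h0 : F.card = 0
  · rw [h0]
    simp
  · rw [e3 h0]
    have h1 : 2 * F.card ≤ 2 * 1 + (F.card * F.card - F.card) := by
      have h2 : F.card ≤ F.card * F.card := Nat.le_mul_self _
      obtain ⟨n, hn⟩ := Nat.exists_eq_succ_of_ne_zero h0
      rw [hn] at h2 ⊢
      rcases Nat.eq_zero_or_pos n with h3 | h3
      · subst h3; simp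
      · have : (n + 1) * (n + 1) = n * n + 2 * n + 1 := by ring
        have h4 : n ≤ n * n := Nat.le_mul_self _
        simp only [Nat.succ_eq_add_one] at *
        omega
    calc (2 : ℝ≥0∞) * F.card = ((2 * F.card : ℕ) : ℝ≥0∞) := by push_cast; rfl
      _ ≤ ((2 * 1 + (F.card * F.card - F.card) : ℕ) : ℝ≥0∞) := by exact_mod_cast h1
      _ = 2 * 1 + ((F.card * F.card - F.card : ℕ) : ℝ≥0∞) := by push_cast; rw [mul_one]

end Pool.Agent.Lib.MP_5349a4_pr.H29
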